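import Pool.Agent.helper81.WS.Spec
import Pool.Agent.helper85.PG.Basic

/-!
# MP_f6e9a2_nt, row ws:ENR: mixed energies of intersections and sums of two systems
-/

set_option autoImplicit false

open Finset

namespace Pool.Agent.WS

open Module Pointwise

open Pool.Agent.helper85.PG (IsSys rr)

theorem ENR_final {X Y C' κ p : ℝ} (hX : 0 ≤ X) (hXY : X ≤ C' * Y) (hY : 0 ≤ Y) (hC : 1 ≤ C') (hp : 0 < p)
    (hpC : C' ^ 2 ≤ p ^ (κ / 2)) : p ^ (κ / 2) * (X + X ^ 2 / p) ≤ p ^ κ * (Y + Y ^ 2 / p) := by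
  have h1 : X + X ^ 2 / p ≤ C' ^ 2 * (Y + Y ^ 2 / p) := by
    have h2 : X ≤ C' ^ 2 * Y := by nlinarith
    have h3 : X ^ 2 ≤ C' ^ 2 * Y ^ 2 := by
      rw [← mul_pow]
      exact pow_le_pow_left₀ hX hXY 2
    have h4 : X ^ 2 / p ≤ C' ^ 2 * Y ^ 2 / p := div_le_div_of_nonneg_right h3 hp.le
    have h5 : C' ^ 2 * (Y + Y ^ 2 / p) = C' ^ 2 * Y + C' ^ 2 * Y ^ 2 / p := by ring
    linarith
  have h6 : p ^ κ = p ^ (κ / 2) * p ^ (κ / 2) := by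
    rw [← Real.rpow_add hp]
    congr 1
    ring
  have h7 : 0 ≤ p ^ (κ / 2) := Real.rpow_nonneg hp.le _
  have h8 : 0 ≤ Y + Y ^ 2 / p := by positivity
  calc p ^ (κ / 2) * (X + X ^ 2 / p) ≤ p ^ (κ / 2) * (C' ^ 2 * (Y + Y ^ 2 / p)) :=
        mul_le_mul_of_nonneg_left h1 h7
    _ ≤ p ^ (κ / 2) * (p ^ (κ / 2) * (Y + Y ^ 2 / p)) := by gcongr
    _ = p ^ κ * (Y + Y ^ 2 / p) := by rw [h6]; ring

theorem ENR (hPKC : Pool.Agent.helper85.PG.PKC_stmt) (hINT : Pool.Agent.helper85.PG.INT_stmt)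
    (hRSZ : Pool.Agent.helper85.PG.RSZ_stmt) (hE2 : Pool.Agent.helper85.PG.E2_stmt) : ENR_stmt := by
  intro d κ hκ
  obtain ⟨C, hC1, hC⟩ := hRSZ d
  obtain ⟨p₁, hp₁⟩ := hE2 (d + d) (κ / 2) (by positivity)
  set C' : ℝ := 5 ^ (d + d) * (5 ^ (d + d) * C) with hC'
  have h5 : (1 : ℝ) ≤ 5 ^ (d + d) := one_le_pow₀ (by norm_num)
  have hC'1 : 1 ≤ C' := by
    have : (1 : ℝ) ≤ 5 ^ (d + d) * C := by nlinarith
    nlinarith
  refine ⟨max p₁ ⌈(C' ^ 2) ^ (2 / κ)⌉₊, ?_⟩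
  intro p _ hp P Q hP hQ
  have hp0 : 0 < (p : ℝ) := by exact_mod_cast (Fact.out : p.Prime).pos
  have hpC : C' ^ 2 ≤ (p : ℝ) ^ (κ / 2) := by
    have h1 : (C' ^ 2) ^ (2 / κ) ≤ (p : ℝ) :=
      (Nat.le_ceil _).trans (by exact_mod_cast (le_max_right _ _).trans hp)
    have h2 : ((C' ^ 2) ^ (2 / κ)) ^ (κ / 2) ≤ (p : ℝ) ^ (κ / 2) :=
      Real.rpow_le_rpow (by positivity) h1 (by positivity)
    rw [← Real.rpow_mul (by positivity)] at h2
    have h3 : 2 / κ * (κ / 2) = 1 := by field_simp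
    rwa [h3, Real.rpow_one] at h2
  obtain ⟨hZ, hS⟩ := hINT p d d P Q hP hQ
  -- sizes
  have hz1 : (1 : ℝ) ≤ ((P 1 ∩ Q 1).card : ℝ) := by
    have h := hZ.card_pos (R := 1) zero_le_one
    exact_mod_cast h
  have hz2 : ((P 2 ∩ Q 2).card : ℝ) ≤ 5 ^ (d + d) * ((P 1 ∩ Q 1).card : ℝ) := by
    have h := (hPKC.2.2 p (d + d) _ hZ 2 1 (by norm_num) (by norm_num)).1
    norm_num at h
    exact h
  have hs8 : ((P 8 + Q 8).card : ℝ) ≤ 5 ^ (d + d) * ((P 6 + Q 6).card : ℝ) := by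
    have h := (hPKC.2.2 p (d + d) _ hS 8 6 (by norm_num) (by norm_num)).1
    refine h.trans ?_
    gcongr
    norm_num
  have hrs := (hC p P Q hP hQ).1
  have hs6 : (0 : ℝ) ≤ ((P 6 + Q 6).card : ℝ) := Nat.cast_nonneg _
  have hND : (0 : ℝ) ≤ ((P 1).card : ℝ) * (Q 1).card := by positivity
  have hzs : ((P 2 ∩ Q 2).card : ℝ) * ((P 8 + Q 8).card : ℝ) ≤ C' * (((P 1).card : ℝ) * (Q 1).card) := by
    calc ((P 2 ∩ Q 2).card : ℝ) * ((P 8 + Q 8).card : ℝ)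
        ≤ (5 ^ (d + d) * ((P 1 ∩ Q 1).card : ℝ)) * (5 ^ (d + d) * ((P 6 + Q 6).card : ℝ)) := by gcongr
      _ = 5 ^ (d + d) * (5 ^ (d + d) * (((P 6 + Q 6).card : ℝ) * ((P 1 ∩ Q 1).card : ℝ))) := by ring
      _ ≤ 5 ^ (d + d) * (5 ^ (d + d) * (C * (((P 1).card : ℝ) * (Q 1).card))) := by gcongr
      _ = C' * (((P 1).card : ℝ) * (Q 1).card) := by rw [hC']; ring
  have hs : ((P 8 + Q 8).card : ℝ) ≤ C' * (((P 1).card : ℝ) * (Q 1).card) := by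
    calc ((P 8 + Q 8).card : ℝ) ≤ 5 ^ (d + d) * ((P 6 + Q 6).card : ℝ) := hs8
      _ ≤ 5 ^ (d + d) * (((P 6 + Q 6).card : ℝ) * ((P 1 ∩ Q 1).card : ℝ)) := by
          gcongr
          nlinarith
      _ ≤ 5 ^ (d + d) * (C * (((P 1).card : ℝ) * (Q 1).card)) := by gcongr
      _ ≤ 5 ^ (d + d) * (5 ^ (d + d) * (C * (((P 1).card : ℝ) * (Q 1).card))) := by
          have h1 : (0 : ℝ) ≤ C * (((P 1).card : ℝ) * (Q 1).card) := by positivity
          exact mul_le_mul_of_nonneg_left (le_mul_of_one_le_left h1 h5) (by positivity)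
      _ = C' * (((P 1).card : ℝ) * (Q 1).card) := by rw [hC']; ring
  -- inclusions
  have hPS : P 1 ⊆ P 8 + Q 8 := by
    intro x hx
    exact Finset.mem_add.2 ⟨x, hP.mono (by norm_num) hx, 0, hQ.zero_mem (by norm_num), add_zero x⟩
  have hZS : P 2 ∩ Q 2 ⊆ P 8 + Q 8 := by
    intro x hx
    exact Finset.mem_add.2 ⟨x, hP.mono (by norm_num) (Finset.mem_inter.1 hx).1, 0, hQ.zero_mem (by norm_num),
      add_zero x⟩
  have hp1 : p₁ ≤ p := (le_max_left _ _).trans hp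
  constructor
  · have h := hp₁ p hp1 (fun R => P R ∩ Q R) (fun R => P R + Q R) hZ hS 2 8 (by norm_num) (by norm_num)
      (Finset.card_le_card hZS)
    refine h.trans ?_
    have h2 := ENR_final (κ := κ) (p := (p : ℝ)) (by positivity) hzs hND hC'1 hp0 hpC
    rw [mul_pow ((P 2 ∩ Q 2).card : ℝ)] at h2
    exact h2
  · have h := hp₁ p hp1 P (fun R => P R + Q R) (hP.mono_dim (Nat.le_add_left _ _)) hS 1 8 (by norm_num)
      (by norm_num) (Finset.card_le_card hPS)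
    refine h.trans ?_
    have h3 : ((P 1).card : ℝ) * ((P 8 + Q 8).card : ℝ) ≤
        C' * (((P 1).card : ℝ) * (((P 1).card : ℝ) * (Q 1).card)) := by
      calc ((P 1).card : ℝ) * ((P 8 + Q 8).card : ℝ)
          ≤ ((P 1).card : ℝ) * (C' * (((P 1).card : ℝ) * (Q 1).card)) := by gcongr
        _ = _ := by ring
    have h2 := ENR_final (κ := κ) (p := (p : ℝ)) (by positivity) h3 (by positivity) hC'1 hp0 hpC
    rw [mul_pow ((P 1).card : ℝ) ((P 8 + Q 8).card : ℝ)] at h2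
    exact h2

end Pool.Agent.WS
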